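import Mathlib

set_option autoImplicit false

namespace Pool.Agent.Results.MP_6623a1_co.Exact

open Finset

/-- The family `g` has unique multiset sums. -/
def UniqueSums {G : Type} [AddCommGroup G] {n : ℕ} (g : Fin n → G) : Prop :=
  ∀ k : Fin n → ℕ, ∑ j, k j = n → ∑ j, k j • g j = ∑ j, g j → ∀ j, k j = 1

/-- Orders of finite abelian groups containing `n` elements with unique multiset sums. -/
def Orders (n : ℕ) : Set ℕ :=
  {N | ∃ (G : Type) (_ : AddCommGroup G) (_ : Fintype G), Fintype.card G = N ∧
    ∃ g : Fin n → G, UniqueSums g}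

lemma aux {G : Type} [AddCommGroup G] {m : ℕ} (g : Fin (m + 1) → G) (hg : UniqueSums g)
    (a b : Fin m → Fin 2) (hab : ∑ i, (b i : ℕ) ≤ ∑ i, (a i : ℕ))
    (h : ∑ i, (a i : ℕ) • (g i.succ - g 0) = ∑ i, (b i : ℕ) • (g i.succ - g 0)) : a = b := by
  obtain ⟨d, hd⟩ := Nat.exists_eq_add_of_le hab
  have e : ∀ i, (1 + (b i : ℕ) - a i) + a i = 1 + b i := fun i => by
    have := (a i).2
    omega
  have key := hg (Fin.cons (1 + d) fun i => 1 + (b i : ℕ) - a i) ?_ ?_
  · funext i
    have h1 := key i.succ
    simp only [Fin.cons_succ] at h1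
    have := e i
    apply Fin.ext
    omega
  · rw [Fin.sum_univ_succ]
    simp only [Fin.cons_zero, Fin.cons_succ]
    have : ∑ i, ((1 + (b i : ℕ) - a i) + a i) = ∑ i : Fin m, (1 + (b i : ℕ)) :=
      sum_congr rfl fun i _ => e i
    rw [sum_add_distrib, sum_add_distrib] at this
    simp only [sum_const, card_univ, Fintype.card_fin, smul_eq_mul, mul_one] at this
    omega
  · rw [Fin.sum_univ_succ, Fin.sum_univ_succ]
    simp only [Fin.cons_zero, Fin.cons_succ]
    have h1 : ∑ i, ((1 + (b i : ℕ) - a i) + a i) • g i.succ =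
        ∑ i : Fin m, (1 + (b i : ℕ)) • g i.succ := sum_congr rfl fun i _ => by rw [e i]
    simp only [add_smul, sum_add_distrib, one_smul] at h1
    simp only [smul_sub, sum_sub_distrib, ← sum_smul] at h
    rw [hd, add_smul] at h
    rw [add_smul, one_smul, eq_sub_of_add_eq h1, eq_add_of_sub_eq h]
    abel

theorem result (n : ℕ) (hn : 1 ≤ n) : IsLeast (Orders n) (2 ^ (n - 1)) := by
  obtain ⟨m, rfl⟩ : ∃ m, n = m + 1 := ⟨n - 1, by omega⟩
  rw [Nat.add_sub_cancel]
  constructor
  · refine ⟨Fin m → ZMod 2, inferInstance, inferInstance, by simp,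
      Fin.cons 0 fun i => Pi.single i 1, ?_⟩
    intro k h1 h2
    rw [Fin.sum_univ_succ] at h1
    rw [Fin.sum_univ_succ, Fin.sum_univ_succ] at h2
    simp only [Fin.cons_zero, Fin.cons_succ, smul_zero, zero_add] at h2
    have odd : ∀ i : Fin m, k i.succ % 2 = 1 := by
      intro i
      have h3 := congrFun h2 i
      rw [Finset.sum_apply, Finset.sum_apply] at h3
      simp only [Pi.smul_apply, Pi.single_apply, smul_ite, smul_zero,
        sum_ite_eq, mem_univ, if_true] at h3
      have := (ZMod.natCast_eq_natCast_iff' (k i.succ) 1 2).1 (by simpa using h3)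
      simpa using this
    have e : ∑ i : Fin m, k i.succ = ∑ i : Fin m, (2 * (k i.succ / 2) + 1) :=
      sum_congr rfl fun i _ => by have := odd i; omega
    rw [sum_add_distrib, ← mul_sum] at e
    simp only [sum_const, card_univ, Fintype.card_fin, smul_eq_mul, mul_one] at e
    have z : ∑ i : Fin m, k i.succ / 2 = 0 := by omega
    intro j
    refine Fin.cases (by omega) (fun i => ?_) j
    have := (sum_eq_zero_iff.1 z) i (mem_univ i)
    have := odd i
    omega
  · rintro N ⟨G, _, _, rfl, g, hg⟩
    have hinj : Function.Injective fun a : Fin m → Fin 2 =>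
        ∑ i, (a i : ℕ) • (g i.succ - g 0) := by
      intro a b h
      rcases le_total (∑ i, (b i : ℕ)) (∑ i, (a i : ℕ)) with hab | hab
      · exact aux g hg a b hab h
      · exact (aux g hg b a hab h.symm).symm
    simpa using Fintype.card_le_of_injective _ hinj

end Pool.Agent.Results.MP_6623a1_co.Exact
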